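import Pool.Agent.N463.MI.Stm

set_option autoImplicit false

namespace Pool.Agent.N342.MI

open Pool.Agent.N463.MI

theorem gg_zero (a t x : ℝ) (ha : a = 2 ∨ a = 3) :
    gg a (sp t x 0) = ((Real.log ((1 + a) / 2) : ℝ) : ℂ) := by
  have ha0 : 0 < 1 + a := by rcases ha with rfl | rfl <;> norm_num
  have h0 : sp t x 0 = 0 := by unfold sp; simp
  unfold gg
  rw [h0, neg_zero, Complex.exp_zero, mul_one, Real.log_div ha0.ne' two_ne_zero, Complex.ofReal_sub,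
    Complex.ofReal_log ha0.le, Complex.ofReal_log (by norm_num : (0 : ℝ) ≤ 2)]
  push_cast
  norm_num

theorem t_E05 (h2 : E02) (h4 : E04) (ha : E05a) (hb : E05b) : E05 := by
  intro a t x hax ht hx
  obtain ⟨hs, hF⟩ := ha a t x hax ht hx
  obtain ⟨G', G'', d1, d2, hc, b2, -, b0⟩ := hb a t x hax ht hx
  obtain ⟨-, hE⟩ := h2 (fun u => gg a (sp t x u)) G' G'' (12 * t ^ 2) 6 t ht d1 d2 hc b2 b0
  have hI := h4 a t x hax ht hx
  have hg0 := gg_zero a t x hax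
  refine ⟨(∑' k : ℕ, gg a (sp t x ((k : ℝ) + 1))) -
    ((cst a : ℂ) / ((t : ℂ) * (1 - (x : ℂ) * Complex.I)) -
      ((Real.log ((1 + a) / 2) / 2 : ℝ) : ℂ)), ?_, ?_⟩
  · have h1 : (∑' k : ℕ, gg a (sp t x ((k : ℝ) + 1))) -
        ((cst a : ℂ) / ((t : ℂ) * (1 - (x : ℂ) * Complex.I)) -
          ((Real.log ((1 + a) / 2) / 2 : ℝ) : ℂ)) =
        (∑' k : ℕ, gg a (sp t x ((k : ℝ) + 1))) -
          (∫ u in Set.Ioi (0 : ℝ), gg a (sp t x u)) + gg a (sp t x 0) / 2 := by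
      rw [hI, hg0]
      push_cast
      ring
    rw [h1]
    refine hE.trans ?_
    rw [div_le_iff₀ (by positivity)]
    nlinarith [sq_nonneg t]
  · rw [hF]
    congr 1
    ring

end Pool.Agent.N342.MI
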